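import Pool.Agent.MP_701998_lc.Lin

open MeasureTheory Set Filter
open scoped ENNReal Topology Classical

namespace Pool.Agent.MP701998

/-- step approximation -/
noncomputable def stp (m : ℕ) (v : Linf) : Linf :=
  ∑ j ∈ Finset.range (2 * m + 1), ((j : ℝ) / m - 1) • cut 1 {n | ⌊(m : ℝ) * (v n + 1)⌋₊ = j}

theorem stp_close {m : ℕ} (hm : 0 < m) {v : Linf} (hv : ‖v‖ ≤ 1) : ‖stp m v - v‖ ≤ 1 / m :=
  lp.norm_le_of_forall_le' _ fun n => by
    have hm' : (0 : ℝ) < m := by exact_mod_cast hm
    obtain ⟨a1, a2⟩ := abs_le.1 ((abs_le_norm v n).trans hv)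
    have h0 : 0 ≤ (m : ℝ) * (v n + 1) := mul_nonneg hm'.le (by linarith)
    have h1 := Nat.floor_le h0
    have h2 := Nat.lt_floor_add_one ((m : ℝ) * (v n + 1))
    have h3 : ⌊(m : ℝ) * (v n + 1)⌋₊ ∈ Finset.range (2 * m + 1) := by
      rw [Finset.mem_range, Nat.lt_succ_iff]
      refine Nat.floor_le_of_le ?_
      push_cast
      nlinarith
    have h4 : stp m v n = ⌊(m : ℝ) * (v n + 1)⌋₊ / m - 1 := by
      unfold stp
      rw [lp.coeFn_sum, Finset.sum_apply, Finset.sum_eq_single_of_mem _ h3]
      · rw [lp.coeFn_smul, Pi.smul_apply, cut_apply, if_pos (by simp), lp.infty_coeFn_one]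
        simp
      · intro j _ hj
        rw [lp.coeFn_smul, Pi.smul_apply, cut_apply, if_neg (by simpa using hj.symm), smul_zero]
    rw [lp.coeFn_sub, Pi.sub_apply, h4, Real.norm_eq_abs, abs_le]
    constructor
    · rw [← sub_nonneg]
      have : (⌊(m : ℝ) * (v n + 1)⌋₊ : ℝ) / m - 1 - v n - -(1 / m) =
          (⌊(m : ℝ) * (v n + 1)⌋₊ + 1 - m * (v n + 1)) / m := by
        field_simp
        ring
      rw [this]
      exact div_nonneg (by linarith) hm'.le
    · have : (⌊(m : ℝ) * (v n + 1)⌋₊ : ℝ) / m ≤ v n + 1 := by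
        rw [div_le_iff₀ hm']
        linarith
      have h5 : (0 : ℝ) ≤ 1 / m := by positivity
      linarith

theorem null_of_binary {L : Linf →L[ℝ] ℝ}
    (hL : ∀ f : ℝ → Linf, (∀ n, Measurable fun t => f t n) → (∀ t n, f t n = 0 ∨ f t n = 1) →
      ∀ c : ℝ, NullMeasurableSet {t | L (f t) < c} volume)
    (f : ℝ → Linf) (hf : Good f) (c : ℝ) : NullMeasurableSet {t | L (f t) < c} volume := by
  have h1 : ∀ m : ℕ, AEMeasurable (fun t => L (stp (m + 1) (f t))) volume := fun m => by
    simp only [stp, map_sum, map_smul, smul_eq_mul]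
    refine Finset.aemeasurable_fun_sum _ fun j _ => AEMeasurable.const_mul ?_ _
    refine NullMeasurable.aemeasurable (measurable_of_Iio fun c => hL _ (fun n => ?_) ?_ c)
    · simp only [cut_apply]
      exact Measurable.ite ((((hf.1 n).add_const 1).const_mul _).nat_floor
        (measurableSet_singleton j)) measurable_const measurable_const
    · intro t n
      rw [cut_apply, lp.infty_coeFn_one]
      split_ifs <;> simp
  have h2 : AEMeasurable (fun t => L (f t)) volume :=
    aemeasurable_of_tendsto_metrizable_ae' h1 (Eventually.of_forall fun t => by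
      refine (L.continuous.tendsto _).comp (tendsto_iff_norm_sub_tendsto_zero.2
        (squeeze_zero (fun _ => norm_nonneg _) (fun m => ?_) tendsto_one_div_add_atTop_nhds_zero_nat))
      exact_mod_cast stp_close m.succ_pos (hf.2 t))
  exact h2.nullMeasurable measurableSet_Iio

end Pool.Agent.MP701998
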