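import Pool.Agent.MP_701998_lc.Tree

open MeasureTheory Set Filter
open scoped ENNReal Topology Classical

namespace Pool.Agent.MP701998

/-- bounded real sequences -/
abbrev Linf : Type := lp (fun _ : ℕ => ℝ) ⊤

/-- coordinatewise measurable maps into the unit ball -/
def Good {X : Type*} [MeasurableSpace X] (f : X → Linf) : Prop :=
  (∀ n, Measurable fun x => f x n) ∧ ∀ x, ‖f x‖ ≤ 1

/-- universal measurability of a functional -/
def UM (L : Linf →L[ℝ] ℝ) : Prop :=
  ∀ (X : Type) [MeasurableSpace X] (μ : Measure X) [IsProbabilityMeasure μ] (f : X → Linf),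
    Good f → AEMeasurable (fun x => L (f x)) μ

theorem abs_le_norm (v : Linf) (n : ℕ) : ‖v n‖ ≤ ‖v‖ := lp.norm_apply_le_norm (by simp) v n

/-- restriction of a sequence to a set of indices -/
noncomputable def cut (v : Linf) (S : Set ℕ) : Linf :=
  ⟨fun n => if n ∈ S then v n else 0, memℓp_infty ⟨‖v‖, by
    rintro _ ⟨n, rfl⟩
    by_cases h : n ∈ S
    · simpa [h] using abs_le_norm v n
    · simp [h]⟩⟩

theorem cut_apply (v : Linf) (S : Set ℕ) (n : ℕ) : cut v S n = if n ∈ S then v n else 0 := rfl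

theorem norm_cut_le (v : Linf) (S : Set ℕ) : ‖cut v S‖ ≤ ‖v‖ :=
  lp.norm_le_of_forall_le' _ fun n => by
    rw [cut_apply]
    split_ifs
    · exact abs_le_norm v n
    · simp

theorem cut_add (v : Linf) (S : Set ℕ) : cut v S + cut v Sᶜ = v := by
  ext n
  rw [lp.coeFn_add, Pi.add_apply, cut_apply, cut_apply]
  by_cases h : n ∈ S <;> simp [h]

theorem cut_ne {v : Linf} {S : Set ℕ} {n : ℕ} (h : cut v S n ≠ 0) : n ∈ S ∧ v n ≠ 0 := by
  rw [cut_apply] at h
  by_cases h' : n ∈ S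
  · exact ⟨h', by simpa [h'] using h⟩
  · simp [h'] at h

theorem Good.cut {X : Type*} [MeasurableSpace X] {f : X → Linf} (hf : Good f) {S : X → Set ℕ}
    (hS : ∀ n, MeasurableSet {x | n ∈ S x}) : Good fun x => cut (f x) (S x) :=
  ⟨fun n => Measurable.ite (hS n) (hf.1 n) measurable_const,
    fun x => (norm_cut_le _ _).trans (hf.2 x)⟩

theorem Good.comp {X Y : Type*} [MeasurableSpace X] [MeasurableSpace Y] {f : Y → Linf}
    (hf : Good f) {φ : X → Y} (hφ : Measurable φ) : Good fun x => f (φ x) :=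
  ⟨fun n => (hf.1 n).comp hφ, fun _ => hf.2 _⟩

theorem norm_sum_le_one {ι : Type*} [Fintype ι] (W : ι → Linf) (h1 : ∀ i, ‖W i‖ ≤ 1)
    (h2 : ∀ n i j, W i n ≠ 0 → W j n ≠ 0 → i = j) : ‖∑ i, W i‖ ≤ 1 :=
  lp.norm_le_of_forall_le' _ fun n => by
    rw [lp.coeFn_sum, Finset.sum_apply]
    by_cases h : ∃ i, W i n ≠ 0
    · obtain ⟨i, hi⟩ := h
      rw [Finset.sum_eq_single i (fun j _ hj => by
        by_contra h'
        exact hj (h2 n j i h' hi)) (by simp)]
      exact (abs_le_norm _ n).trans (h1 i)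
    · push Not at h
      simp [h]

variable {L : Linf →L[ℝ] ℝ} (hL : UM L)
include hL

theorem UM.integrable {X : Type} [MeasurableSpace X] (μ : Measure X) [IsProbabilityMeasure μ]
    {f : X → Linf} (hf : Good f) : Integrable (fun x => L (f x)) μ :=
  Integrable.of_bound (hL X μ f hf).aestronglyMeasurable ‖L‖ (Eventually.of_forall fun x =>
    (L.le_opNorm _).trans (mul_le_of_le_one_right (norm_nonneg _) (hf.2 x)))

theorem UM.integral_comp {X Y : Type} [MeasurableSpace X] [MeasurableSpace Y] {μ : Measure X}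
    {ν : Measure Y} [IsProbabilityMeasure ν] {φ : X → Y} (hφ : MeasurePreserving φ μ ν)
    {f : Y → Linf} (hf : Good f) : ∫ x, L (f (φ x)) ∂μ = ∫ y, L (f y) ∂ν := by
  have h := (hL Y ν f hf).aestronglyMeasurable
  rw [← hφ.map_eq] at h
  have h2 := integral_map hφ.measurable.aemeasurable h
  rw [hφ.map_eq] at h2
  exact h2.symm

omit hL in
theorem abs_integral_le {X : Type} [MeasurableSpace X] (μ : Measure X) [IsProbabilityMeasure μ]
    {f : X → Linf} {c : ℝ} (h : ∀ᵐ x ∂μ, ‖f x‖ ≤ c) : |∫ x, L (f x) ∂μ| ≤ ‖L‖ * c := by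
  have := norm_integral_le_of_norm_le_const (μ := μ) (f := fun x => L (f x)) (C := ‖L‖ * c) (by
    filter_upwards [h] with x hx
    exact (L.le_opNorm _).trans (mul_le_mul_of_nonneg_left hx (norm_nonneg _)))
  simpa using this

theorem UM.sum_le {X ι : Type} [Fintype ι] [MeasurableSpace X] (μ : Measure X)
    [IsProbabilityMeasure μ] {W : ι → X → Linf} (hW : ∀ i, Good (W i))
    (h : ∀ᵐ x ∂μ, ∀ n i j, W i x n ≠ 0 → W j x n ≠ 0 → i = j) :
    |∑ i, ∫ x, L (W i x) ∂μ| ≤ ‖L‖ := by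
  rw [← integral_finsetSum _ fun i _ => hL.integrable μ (hW i)]
  simp only [← map_sum]
  refine (abs_integral_le μ (c := 1) ?_).trans (mul_one _).le
  filter_upwards [h] with x hx
  exact norm_sum_le_one _ (fun i => (hW i).2 x) hx

theorem UM.integral_cut {X : Type} [MeasurableSpace X] (μ : Measure X) [IsProbabilityMeasure μ]
    {f : X → Linf} (hf : Good f) {S : X → Set ℕ} (hS : ∀ n, MeasurableSet {x | n ∈ S x}) :
    ∫ x, L (f x) ∂μ = ∫ x, L (cut (f x) (S x)) ∂μ + ∫ x, L (cut (f x) (S x)ᶜ) ∂μ := by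
  rw [← integral_add (hL.integrable μ (hf.cut hS))
    (hL.integrable μ (hf.cut (S := fun x => (S x)ᶜ) fun n => (hS n).compl))]
  simp only [← map_add, cut_add]

/-- mass transport on the free group -/
theorem UM.edge {Ω : Type} [MeasurableSpace Ω] (μ : Measure Ω) [IsProbabilityMeasure μ] (k : ℕ)
    {A : ℕ → Set Ω} (hA : ∀ n, MeasurableSet (A n)) (hk : ∀ n, 2 * k * μ (A n) < 1)
    {h : Ω × Ω → Linf} (hh : Good h) (hs : ∀ p n, h p n ≠ 0 → p.1 ∈ A n ∧ p.2 ∈ A n) :
    k * |∫ p, L (h p) ∂(μ.prod μ)| ≤ 2 * ‖L‖ := by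
  set P := Measure.infinitePi fun _ : FreeGroup (Fin k) => μ with hP
  let φ : Fin k → (FreeGroup (Fin k) → Ω) → Ω × Ω :=
    fun i x => (x 1, x (FreeGroup.mk [(i, true)]))
  have hφm : ∀ i, Measurable (φ i) := fun i =>
    (measurable_pi_apply _).prodMk (measurable_pi_apply _)
  have hφ : ∀ i, MeasurePreserving (φ i) P (μ.prod μ) := fun i =>
    ⟨hφm i, Measure.infinitePi_map_eval_prod (P := fun _ : FreeGroup (Fin k) => μ)
      (FreeGroup.of_ne_one i).symm⟩
  let S : Fin k → (FreeGroup (Fin k) → Ω) → Set ℕ := fun i x => {n | x ∈ Ori (A n) (i, true)}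
  have hS : ∀ i n, MeasurableSet {x | n ∈ S i x} := fun i n => measurableSet_Ori (hA n) _
  have hH : ∀ i, Good fun x => h (φ i x) := fun i => hh.comp (hφm i)
  have hV : ∀ i, Good fun x => cut (h (φ i x)) (S i x)ᶜ := fun i =>
    (hH i).cut (S := fun x => (S i x)ᶜ) fun n => (hS i n).compl
  have h1 : ∀ i, ∫ p, L (h p) ∂(μ.prod μ) = ∫ x, L (cut (h (φ i x)) (S i x)) ∂P +
      ∫ x, L (cut (h (φ i (sh (FreeGroup.mk [iv (i, true)]) x)))
        (S i (sh (FreeGroup.mk [iv (i, true)]) x))ᶜ) ∂P := fun i => by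
    rw [← hL.integral_comp (hφ i) hh, hL.integral_cut P (hH i) (hS i),
      ← hL.integral_comp (measurePreserving_sh μ (FreeGroup.mk [iv (i, true)])) (hV i)]
  have h2 := hL.sum_le P (fun i => (hH i).cut (hS i)) (by
    filter_upwards [ae_Ori μ hA hk] with x hx n i j hi hj
    exact congrArg Prod.fst (hx n _ _ (cut_ne hi).1 (cut_ne hj).1))
  have h3 := hL.sum_le P (fun i => (hV i).comp (measurable_sh (FreeGroup.mk [iv (i, true)]))) (by
    have key : ∀ (x : FreeGroup (Fin k) → Ω) n i,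
        cut (h (φ i (sh (FreeGroup.mk [iv (i, true)]) x)))
          (S i (sh (FreeGroup.mk [iv (i, true)]) x))ᶜ n ≠ 0 → x ∈ Ori (A n) (iv (i, true)) := by
      intro x n i hi
      obtain ⟨a1, a2⟩ := cut_ne hi
      obtain ⟨a3, a4⟩ := hs _ n a2
      have a5 := (Ori_total (A n) (i, true) a3 a4).resolve_left a1
      have a6 := sh_iv (iv (i, true)) x
      rw [iv_iv] at a6
      rwa [a6] at a5
    filter_upwards [ae_Ori μ hA hk] with x hx n i j hi hj
    exact congrArg Prod.fst (hx n _ _ (key x n i hi) (key x n j hj)))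
  have h4 : (k : ℝ) * ∫ p, L (h p) ∂(μ.prod μ) = ∑ i : Fin k, ∫ p, L (h p) ∂(μ.prod μ) := by
    simp
  rw [Finset.sum_congr rfl fun i _ => h1 i, Finset.sum_add_distrib] at h4
  rw [← Nat.abs_cast k, ← abs_mul, h4, two_mul]
  exact (abs_add_le _ _).trans (add_le_add h2 h3)

theorem UM.halve (j : ℕ) : ∀ ε : ℝ, 0 < ε → ∃ η : ℝ≥0∞, 0 < η ∧
    ∀ (X : Type) [MeasurableSpace X] (μ : Measure X) [IsProbabilityMeasure μ] (g : X → Linf),
      Good g → (∀ n, μ {x | g x n ≠ 0} ≤ η) → |∫ x, L (g x) ∂μ| ≤ ‖L‖ / 2 ^ j + ε := by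
  induction j with
  | zero =>
    intro ε hε
    refine ⟨1, one_pos, fun X _ μ _ g hg _ => ?_⟩
    have := abs_integral_le (L := L) μ (Eventually.of_forall hg.2)
    rw [pow_zero, div_one]
    linarith
  | succ j ih =>
    intro ε hε
    obtain ⟨η, hη, H⟩ := ih ε hε
    obtain ⟨k, hk⟩ := exists_nat_gt (4 * ‖L‖ / ε)
    have hk0 : (0 : ℝ) < k := lt_of_le_of_lt (by positivity) hk
    rw [div_lt_iff₀ hε] at hk
    refine ⟨min (η / 2) (2 * k + 1)⁻¹, lt_min (ENNReal.half_pos hη.ne')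
      (ENNReal.inv_pos.2 (by finiteness)), fun X _ μ _ g hg hZ => ?_⟩
    have hA : ∀ n, MeasurableSet {x | g x n ≠ 0} := fun n =>
      (hg.1 n (measurableSet_singleton 0)).compl
    have hk' : ∀ n, 2 * k * μ {x | g x n ≠ 0} < 1 := fun n => by
      refine lt_of_le_of_lt (mul_le_mul_right ((hZ n).trans (min_le_right _ _)) _) ?_
      rw [← div_eq_mul_inv, ENNReal.div_lt_iff (by simp) (Or.inl (by finiteness)), one_mul]
      exact ENNReal.lt_add_right (by finiteness) one_ne_zero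
    have g1 : Good fun p : X × X => g p.1 := hg.comp measurable_fst
    have g2 : Good fun p : X × X => g p.2 := hg.comp measurable_snd
    have s1 : ∀ n, MeasurableSet {p : X × X | n ∈ {n | g p.1 n ≠ 0}} := fun n =>
      measurable_fst (hA n)
    have s2 : ∀ n, MeasurableSet {p : X × X | n ∈ {n | g p.2 n ≠ 0}} := fun n =>
      measurable_snd (hA n)
    have e1 := hL.integral_cut (μ.prod μ) g1 s2
    have e2 := hL.integral_cut (μ.prod μ) g2 s1
    rw [hL.integral_comp measurePreserving_fst hg] at e1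
    rw [hL.integral_comp measurePreserving_snd hg] at e2
    have b1 := hL.edge μ k hA hk' (g1.cut s2) fun p n h => ⟨(cut_ne h).2, (cut_ne h).1⟩
    have b2 := hL.edge μ k hA hk' (g2.cut s1) fun p n h => ⟨(cut_ne h).1, (cut_ne h).2⟩
    have c1 := g1.cut (S := fun p => {n | g p.2 n ≠ 0}ᶜ) fun n => (s2 n).compl
    have c2 := g2.cut (S := fun p => {n | g p.1 n ≠ 0}ᶜ) fun n => (s1 n).compl
    have c3 : Good fun p : X × X =>
        cut (g p.1) {n | g p.2 n ≠ 0}ᶜ + cut (g p.2) {n | g p.1 n ≠ 0}ᶜ := by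
      refine ⟨fun n => (c1.1 n).add (c2.1 n), fun p => lp.norm_le_of_forall_le' _ fun n => ?_⟩
      rw [lp.coeFn_add, Pi.add_apply, cut_apply, cut_apply]
      have a1 := (abs_le_norm _ n).trans (hg.2 p.1)
      have a2 := (abs_le_norm _ n).trans (hg.2 p.2)
      by_cases h1 : g p.1 n = 0 <;> by_cases h2 : g p.2 n = 0 <;> simp_all
    have b3 := H (X × X) (μ.prod μ) _ c3 fun n => by
      refine (measure_mono (t := Prod.fst ⁻¹' {x | g x n ≠ 0} ∪ Prod.snd ⁻¹' {x | g x n ≠ 0})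
        fun p hp => ?_).trans ((measure_union_le _ _).trans ?_)
      · by_contra h
        simp only [mem_union, mem_preimage, mem_ofPred_eq, not_or, not_not] at h
        apply hp
        rw [lp.coeFn_add, Pi.add_apply, cut_apply, cut_apply]
        simp [h.1, h.2]
      · rw [measurePreserving_fst.measure_preimage (hA n).nullMeasurableSet,
          measurePreserving_snd.measure_preimage (hA n).nullMeasurableSet, ← ENNReal.add_halves η]
        exact add_le_add ((hZ n).trans (min_le_left _ _)) ((hZ n).trans (min_le_left _ _))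
    simp only [map_add] at b3
    rw [integral_add (hL.integrable _ c1) (hL.integrable _ c2)] at b3
    have d1 : |∫ p, L (cut (g p.1) {n | g p.2 n ≠ 0}) ∂(μ.prod μ)| ≤ ε / 2 :=
      le_of_mul_le_mul_left (by linarith) hk0
    have d2 : |∫ p, L (cut (g p.2) {n | g p.1 n ≠ 0}) ∂(μ.prod μ)| ≤ ε / 2 :=
      le_of_mul_le_mul_left (by linarith) hk0
    rw [abs_le] at b3 d1 d2 ⊢
    rw [pow_succ, ← div_div]
    constructor <;> linarith [b3.1, b3.2, d1.1, d1.2, d2.1, d2.2]

/-- sequences whose coordinates are rarely nonzero have small mean value -/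
theorem UM.small (ε : ℝ) (hε : 0 < ε) : ∃ η : ℝ≥0∞, 0 < η ∧
    ∀ (X : Type) [MeasurableSpace X] (μ : Measure X) [IsProbabilityMeasure μ] (g : X → Linf),
      Good g → (∀ n, μ {x | g x n ≠ 0} ≤ η) → |∫ x, L (g x) ∂μ| ≤ ε := by
  obtain ⟨j, hj⟩ := pow_unbounded_of_one_lt (‖L‖ / (ε / 2)) (one_lt_two (α := ℝ))
  obtain ⟨η, hη, H⟩ := hL.halve j (ε / 2) (half_pos hε)
  refine ⟨η, hη, fun X _ μ _ g hg h => (H X μ g hg h).trans ?_⟩
  have : ‖L‖ / 2 ^ j ≤ ε / 2 := by
    rw [div_lt_iff₀ (half_pos hε)] at hj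
    rw [div_le_iff₀ (by positivity)]
    linarith
  linarith

end Pool.Agent.MP701998
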