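import Mathlib

open MeasureTheory Set
open scoped ENNReal

namespace Pool.Agent.MP701998

theorem perfect_aux {X Y : Type*} [TopologicalSpace X] [PolishSpace X] [MeasurableSpace X]
    [BorelSpace X] [TopologicalSpace Y] [T2Space Y] [MeasurableSpace Y] [OpensMeasurableSpace Y]
    (ν : Measure X) [IsFiniteMeasure ν] {r : X → Y} (hr : Continuous r) {B : Set X}
    (hB : MeasurableSet B) : ∃ C : Set Y, MeasurableSet C ∧ C ⊆ r '' B ∧ ν (B \ r ⁻¹' C) = 0 := by
  have h : ∀ n : ℕ, ∃ K ⊆ B, IsCompact K ∧ ν (B \ K) < (n : ℝ≥0∞)⁻¹ := fun n =>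
    hB.exists_isCompact_sdiff_lt (measure_ne_top _ _) (by simp)
  choose K hK1 hK2 hK3 using h
  refine ⟨⋃ n, r '' K n, MeasurableSet.iUnion fun n => ((hK2 n).image hr).measurableSet,
    iUnion_subset fun n => image_mono (hK1 n), ?_⟩
  refine le_antisymm (ge_of_tendsto' ENNReal.tendsto_inv_nat_nhds_zero fun n => ?_) bot_le
  refine le_trans (measure_mono ?_) (hK3 n).le
  intro x hx
  exact ⟨hx.1, fun hx' => hx.2 (mem_iUnion.2 ⟨n, mem_image_of_mem r hx'⟩)⟩

theorem perfect_aux2 {X Y : Type*} [MeasurableSpace X] [StandardBorelSpace X]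
    [TopologicalSpace Y] [T2Space Y] [SecondCountableTopology Y] [MeasurableSpace Y]
    [OpensMeasurableSpace Y] (ν : Measure X) [IsFiniteMeasure ν] {r : X → Y} (hr : Measurable r)
    {B : Set X} (hB : MeasurableSet B) :
    ∃ C : Set Y, MeasurableSet C ∧ C ⊆ r '' B ∧ ν (B \ r ⁻¹' C) = 0 := by
  let := upgradeStandardBorel X
  have hP : PolishSpace X := inferInstance
  obtain ⟨t', hle, hc, ht'⟩ := hr.exists_continuous
  have hb : @BorelSpace X t' _ := by
    refine @BorelSpace.mk X t' _ ?_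
    rw [borel_eq_borel_of_le ht' hP hle]
    exact eq_borel_upgradeStandardBorel X
  exact @perfect_aux X Y t' ht' _ hb _ _ _ _ ν _ r hc B hB

/-- a set whose preimage under a Borel map is measurable is measurable for the image measure -/
theorem perfect {X Y : Type*} [MeasurableSpace X] [StandardBorelSpace X]
    [TopologicalSpace Y] [T2Space Y] [SecondCountableTopology Y] [MeasurableSpace Y]
    [OpensMeasurableSpace Y] (ν : Measure X) [IsFiniteMeasure ν] {r : X → Y} (hr : Measurable r)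
    {S : Set Y} (hS : NullMeasurableSet (r ⁻¹' S) ν) : NullMeasurableSet S (ν.map r) := by
  obtain ⟨B, hB1, hB2, hB3⟩ := hS.exists_measurable_subset_ae_eq
  obtain ⟨B', hB1', hB2', hB3'⟩ := hS.compl.exists_measurable_subset_ae_eq
  obtain ⟨C, hC1, hC2, hC3⟩ := perfect_aux2 ν hr hB2
  obtain ⟨C', hC1', hC2', hC3'⟩ := perfect_aux2 ν hr hB2'
  have h1 : C ⊆ S := hC2.trans (image_subset_iff.2 hB1)
  have h2 : C' ⊆ Sᶜ := hC2'.trans (image_subset_iff.2 hB1')
  have h3 : (ν.map r) (C ∪ C')ᶜ = 0 := by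
    rw [Measure.map_apply hr (hC1.union hC1').compl]
    have h4 : ν (r ⁻¹' S \ B) = 0 := (ae_eq_set.1 hB3).2
    have h5 : ν ((r ⁻¹' S)ᶜ \ B') = 0 := (ae_eq_set.1 hB3').2
    refine measure_mono_null (t := (r ⁻¹' S \ B ∪ (r ⁻¹' S)ᶜ \ B') ∪
      (B \ r ⁻¹' C ∪ B' \ r ⁻¹' C')) ?_
      (measure_union_null (measure_union_null h4 h5) (measure_union_null hC3 hC3'))
    intro x hx
    simp only [mem_preimage, mem_compl_iff, mem_union, not_or, mem_sdiff] at hx ⊢
    tauto
  refine hC1.nullMeasurableSet.congr (ae_eq_set.2 ⟨?_, ?_⟩)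
  · rw [sdiff_eq_empty.2 h1, measure_empty]
  · refine measure_mono_null (fun y hy => ?_) h3
    rintro (h | h)
    · exact hy.2 h
    · exact h2 h hy.1

end Pool.Agent.MP701998
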