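import Pool.Agent.MP_701998_lc.Edge
import Pool.Agent.MP_701998_lc.Perfect

open MeasureTheory ProbabilityTheory Set Filter
open scoped ENNReal Topology Classical

namespace Pool.Agent.MP701998

theorem cheb {X : Type} [MeasurableSpace X] (μ : Measure X) [IsProbabilityMeasure μ] {u : X → ℝ}
    (hu : Measurable u) (h1 : ∀ x, ‖u x‖ ≤ 1) {N : ℕ} (hN : 0 < N) {δ : ℝ} (hδ : 0 < δ) :
    (Measure.pi fun _ : Fin N => μ) {x | δ ≤ |(N : ℝ)⁻¹ * ∑ i, u (x i) - ∫ y, u y ∂μ|} ≤
      ENNReal.ofReal ((N : ℝ)⁻¹ / δ ^ 2) := by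
  have hN' : (0 : ℝ) < N := by exact_mod_cast hN
  have hm : MemLp u 2 μ := MemLp.of_bound hu.aestronglyMeasurable 1 (Eventually.of_forall h1)
  have hmi : ∀ i : Fin N, MemLp (fun x : Fin N → X => u (x i)) 2 (Measure.pi fun _ => μ) :=
    fun i => hm.comp_measurePreserving (measurePreserving_eval (fun _ : Fin N => μ) i)
  have hs : MemLp (fun x : Fin N → X => (N : ℝ)⁻¹ * ∑ i, u (x i)) 2 (Measure.pi fun _ => μ) :=
    (memLp_finsetSum _ fun i _ => hmi i).const_mul _
  have he : ∫ x : Fin N → X, (N : ℝ)⁻¹ * ∑ i, u (x i) ∂(Measure.pi fun _ => μ) = ∫ y, u y ∂μ := by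
    rw [integral_const_mul, integral_finsetSum _ fun i _ => (hmi i).integrable one_le_two]
    simp only [integral_comp_eval (μ := fun _ : Fin N => μ) hu.aestronglyMeasurable]
    simp [hN'.ne']
  have hv : Var[u; μ] ≤ 1 := by
    have := variance_le_sq_of_bounded (μ := μ) (a := -1) (b := 1) (X := u)
      (Eventually.of_forall fun x => abs_le.1 (h1 x)) hu.aemeasurable
    norm_num at this
    exact this
  have h2 := meas_ge_le_variance_div_sq hs hδ
  rw [he] at h2
  refine h2.trans (ENNReal.ofReal_le_ofReal (div_le_div_of_nonneg_right ?_ (by positivity)))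
  have h3 := variance_sum_pi (μ := fun _ : Fin N => μ) (X := fun _ => u) fun _ => hm
  have h4 : (∑ i, fun x : Fin N → X => u (x i)) = fun x => ∑ i, u (x i) := by
    funext x
    simp
  rw [h4] at h3
  rw [variance_const_mul, h3]
  simp only [Finset.sum_const, Finset.card_univ, Fintype.card_fin, nsmul_eq_mul]
  rw [sq, mul_assoc, inv_mul_cancel_left₀ hN'.ne']
  exact mul_le_of_le_one_right (by positivity) hv

theorem UM.linear {L : Linf →L[ℝ] ℝ} (hL : UM L) {X : Type} [MeasurableSpace X] (μ : Measure X)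
    [IsProbabilityMeasure μ] {f : X → Linf} (hf : Good f) {b : Linf}
    (hb : ∀ n, b n = ∫ x, f x n ∂μ) : ∫ x, L (f x) ∂μ = L b := by
  refine eq_of_forall_dist_le fun ε hε => ?_
  have hfn : ∀ n x, ‖f x n‖ ≤ 1 := fun n x => (abs_le_norm _ n).trans (hf.2 x)
  have hb1 : ‖b‖ ≤ 1 := lp.norm_le_of_forall_le' _ fun n => by
    rw [hb]
    simpa using norm_integral_le_of_norm_le_const (μ := μ) (Eventually.of_forall (hfn n))
  obtain ⟨η, hη, H⟩ := hL.small (ε / 4) (by positivity)
  obtain ⟨δ, hδ, hδ'⟩ : ∃ δ : ℝ, 0 < δ ∧ ‖L‖ * δ ≤ ε / 4 :=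
    ⟨ε / 4 / (‖L‖ + 1), by positivity, by
      rw [mul_div_assoc', div_le_iff₀ (by positivity)]
      nlinarith [norm_nonneg L]⟩
  obtain ⟨N, hN, hN'⟩ : ∃ N : ℕ, 0 < N ∧ ENNReal.ofReal ((N : ℝ)⁻¹ / δ ^ 2) ≤ η := by
    have h1 : Tendsto (fun N : ℕ => ENNReal.ofReal ((N : ℝ)⁻¹ / δ ^ 2)) atTop (𝓝 0) := by
      have := ENNReal.tendsto_ofReal ((tendsto_inv_atTop_nhds_zero_nat (𝕜 := ℝ)).div_const (δ ^ 2))
      simpa using this
    exact ((eventually_gt_atTop 0).and (h1.eventually (ge_mem_nhds hη))).exists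
  have hN0 : (0 : ℝ) < N := by exact_mod_cast hN
  let D : (Fin N → X) → Linf := fun x => (2 : ℝ)⁻¹ • ((N : ℝ)⁻¹ • ∑ i, f (x i) - b)
  have hD : ∀ x n, D x n = 2⁻¹ * ((N : ℝ)⁻¹ * ∑ i, f (x i) n - b n) := fun x n => by
    simp only [D, lp.coeFn_smul, lp.coeFn_sub, lp.coeFn_sum, Pi.smul_apply, Pi.sub_apply,
      Finset.sum_apply, smul_eq_mul]
  have hm : ∀ n, Measurable fun x : Fin N → X => (N : ℝ)⁻¹ * ∑ i, f (x i) n - b n := fun n =>
    ((Finset.measurable_sum _ fun i _ => (hf.1 n).comp (measurable_pi_apply i)).const_mul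
      _).sub_const _
  have hG : Good D := by
    refine ⟨fun n => ?_, fun x => ?_⟩
    · simp only [hD]
      exact (hm n).const_mul _
    · have h1 : ‖∑ i, f (x i)‖ ≤ N := by
        refine (norm_sum_le _ _).trans ((Finset.sum_le_card_nsmul _ _ 1 fun i _ => hf.2 _).trans ?_)
        simp
      have h2 : ‖(N : ℝ)⁻¹ • ∑ i, f (x i)‖ ≤ 1 := by
        rw [norm_smul, norm_inv, Real.norm_natCast, inv_mul_le_iff₀ hN0, mul_one]
        exact h1
      have h3 := norm_sub_le ((N : ℝ)⁻¹ • ∑ i, f (x i)) b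
      simp only [D]
      rw [norm_smul, norm_inv, Real.norm_two]
      linarith
  let S : (Fin N → X) → Set ℕ := fun x => {n | δ ≤ |(N : ℝ)⁻¹ * ∑ i, f (x i) n - b n|}
  have hS : ∀ n, MeasurableSet {x | n ∈ S x} := fun n =>
    measurableSet_le measurable_const (hm n).abs
  have e1 := hL.integral_cut (Measure.pi fun _ : Fin N => μ) hG hS
  have b1 := H _ (Measure.pi fun _ : Fin N => μ) _ (hG.cut hS) fun n => by
    refine (measure_mono fun x hx => ?_).trans ((cheb μ (hf.1 n) (hfn n) hN hδ).trans hN')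
    have := (cut_ne hx).1
    rw [mem_ofPred_eq, ← hb]
    exact this
  have b2 := abs_integral_le (L := L) (Measure.pi fun _ : Fin N => μ)
    (f := fun x => cut (D x) (S x)ᶜ) (c := δ) (Eventually.of_forall fun x =>
      lp.norm_le_of_forall_le' _ fun n => by
        rw [cut_apply]
        split_ifs with h
        · have h' : |(N : ℝ)⁻¹ * ∑ i, f (x i) n - b n| < δ := not_le.1 h
          rw [hD, Real.norm_eq_abs, abs_mul, abs_of_pos (by norm_num : (0 : ℝ) < 2⁻¹)]
          linarith
        · simpa using hδ.le)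
  have hi : ∀ i : Fin N, Good fun x : Fin N → X => f (x i) := fun i =>
    hf.comp (measurable_pi_apply i)
  have e2 : ∫ x, L (D x) ∂(Measure.pi fun _ : Fin N => μ) = 2⁻¹ * (∫ x, L (f x) ∂μ - L b) := by
    simp only [D, map_smul, map_sub, map_sum, smul_eq_mul]
    rw [integral_const_mul, integral_sub ((integrable_finsetSum _ fun i _ =>
      hL.integrable _ (hi i)).const_mul _) (integrable_const _), integral_const_mul,
      integral_finsetSum _ fun i _ => hL.integrable _ (hi i)]
    have : ∀ i : Fin N, ∫ x : Fin N → X, L (f (x i)) ∂(Measure.pi fun _ : Fin N => μ) =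
        ∫ x, L (f x) ∂μ := fun i =>
      hL.integral_comp (measurePreserving_eval (fun _ : Fin N => μ) i) hf
    simp [this, hN0.ne']
  rw [e2] at e1
  rw [Real.dist_eq]
  rw [abs_le] at b1 b2 ⊢
  constructor <;> linarith [b1.1, b1.2, b2.1, b2.2]

/-- truncation of an arbitrary sequence -/
noncomputable def clamp (y : ℕ → ℝ) : Linf :=
  ⟨fun n => if |y n| ≤ 1 then y n else 0, memℓp_infty ⟨1, by
    rintro _ ⟨n, rfl⟩
    by_cases h : |y n| ≤ 1
    · simp [h]
    · simp [h]⟩⟩

theorem clamp_apply (y : ℕ → ℝ) (n : ℕ) : clamp y n = if |y n| ≤ 1 then y n else 0 := rfl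

theorem good_clamp : Good clamp := by
  refine ⟨fun n => Measurable.ite (measurableSet_le (measurable_pi_apply n).abs measurable_const)
    (measurable_pi_apply n) measurable_const, fun y => lp.norm_le_of_forall_le' _ fun n => ?_⟩
  rw [clamp_apply]
  split_ifs with h
  · exact h
  · simp

theorem clamp_eq {v : Linf} (h : ‖v‖ ≤ 1) : clamp (fun n => v n) = v := by
  ext n
  exact if_pos ((abs_le_norm v n).trans h)

variable {L : Linf →L[ℝ] ℝ}
  (hL : ∀ f : ℝ → Linf, Good f → ∀ c : ℝ, NullMeasurableSet {t | L (f t) < c} volume)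
include hL

theorem aemeasurable_clamp (ν : Measure (ℕ → ℝ)) [IsProbabilityMeasure ν] :
    AEMeasurable (fun y => L (clamp y)) ν := by
  obtain ⟨r, hr, rfl⟩ := ν.exists_measurable_map_eq
  refine NullMeasurable.aemeasurable (measurable_of_Iio fun c => ?_)
  refine perfect volume hr (S := (fun y => L (clamp y)) ⁻¹' Iio c) ?_
  have hp : Measurable (projIcc (0 : ℝ) 1 zero_le_one) := continuous_projIcc.measurable
  have h1 := ((hL _ (good_clamp.comp (hr.comp hp)) c).mono_ac
    Measure.absolutelyContinuous_restrict).preimage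
    unitInterval.measurePreserving_coe.quasiMeasurePreserving
  convert h1 using 1
  ext t
  simp

theorem um_of_lebesgue : UM L := by
  intro X _ μ _ f hf
  have hφ : Measurable fun x n => f x n := measurable_pi_lambda _ hf.1
  have := Measure.isProbabilityMeasure_map (μ := μ) hφ.aemeasurable
  have h1 := (aemeasurable_clamp hL (μ.map fun x n => f x n)).comp_measurable hφ
  simpa only [Function.comp_def, clamp_eq (hf.2 _)] using h1

theorem medial {Ω : Type*} [MeasurableSpace Ω] (μ : Measure Ω) [IsProbabilityMeasure μ]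
    {f : Ω → Linf} (hf : Good f) {b : Linf} (hb : ∀ n, b n = ∫ x, f x n ∂μ) :
    Integrable (fun x => L (f x)) μ ∧ ∫ x, L (f x) ∂μ = L b := by
  have hφ : Measurable fun x n => f x n := measurable_pi_lambda _ hf.1
  have := Measure.isProbabilityMeasure_map (μ := μ) hφ.aemeasurable
  have hU := um_of_lebesgue hL
  have h1 := hU.integrable (μ.map fun x n => f x n) good_clamp
  have h2 := hU.linear (μ.map fun x n => f x n) good_clamp (b := b) fun n => by
    rw [integral_map hφ.aemeasurable (good_clamp.1 n).aestronglyMeasurable, hb]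
    simp only [clamp_eq (hf.2 _)]
  rw [integral_map hφ.aemeasurable h1.aestronglyMeasurable] at h2
  have h3 := (integrable_map_measure h1.aestronglyMeasurable hφ.aemeasurable).1 h1
  simp only [Function.comp_def, clamp_eq (hf.2 _)] at h2 h3
  exact ⟨h3, h2⟩

end Pool.Agent.MP701998
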