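import Mathlib

open MeasureTheory Set Filter
open scoped ENNReal Topology

namespace Pool.Agent.MP701998

variable {k : ℕ} {Ω : Type}

/-- shift of a configuration on the free group -/
def sh (g : FreeGroup (Fin k)) (x : FreeGroup (Fin k) → Ω) : FreeGroup (Fin k) → Ω :=
  fun h => x (h * g)

/-- formal inverse of a letter -/
def iv (s : Fin k × Bool) : Fin k × Bool := (s.1, !s.2)

theorem iv_iv (s : Fin k × Bool) : iv (iv s) = s := by simp [iv]

theorem sh_sh (g g' : FreeGroup (Fin k)) (x : FreeGroup (Fin k) → Ω) :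
    sh g (sh g' x) = sh (g * g') x := by
  funext h
  simp [sh, mul_assoc]

theorem sh_one (x : FreeGroup (Fin k) → Ω) : sh 1 x = x := by
  funext h
  simp [sh]

theorem sh_iv (s : Fin k × Bool) (x : FreeGroup (Fin k) → Ω) :
    sh (FreeGroup.mk [iv s]) (sh (FreeGroup.mk [s]) x) = x := by
  have : FreeGroup.mk [iv s] = (FreeGroup.mk [s])⁻¹ := by
    rw [FreeGroup.inv_mk]
    simp [FreeGroup.invRev, iv]
  rw [sh_sh, this, inv_mul_cancel, sh_one]

/-- configurations with a path of length `m` inside `A` which does not start with `t` -/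
def Pth (A : Set Ω) : ℕ → Fin k × Bool → Set (FreeGroup (Fin k) → Ω)
  | 0, _ => {x | x 1 ∈ A}
  | m + 1, t => {x | x 1 ∈ A ∧ ∃ s, s ≠ t ∧ sh (FreeGroup.mk [s]) x ∈ Pth A m (iv s)}

theorem Pth_succ (A : Set Ω) : ∀ (m : ℕ) (t : Fin k × Bool), Pth A (m + 1) t ⊆ Pth A m t
  | 0, _ => fun _ hx => hx.1
  | m + 1, _ => fun _ ⟨h1, s, hs, h2⟩ => ⟨h1, s, hs, Pth_succ A m _ h2⟩

theorem Pth_anti (A : Set Ω) (t : Fin k × Bool) : Antitone fun m => Pth A m t :=
  antitone_nat_of_succ_le fun m => Pth_succ A m t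

/-- the edge `s` is oriented away from the origin -/
def Ori (A : Set Ω) (s : Fin k × Bool) : Set (FreeGroup (Fin k) → Ω) :=
  {x | x 1 ∈ A ∧ ∀ m, x ∈ Pth A m s → sh (FreeGroup.mk [s]) x ∈ Pth A m (iv s)}

theorem Ori_total (A : Set Ω) (s : Fin k × Bool) {x : FreeGroup (Fin k) → Ω} (h1 : x 1 ∈ A)
    (h2 : x (FreeGroup.mk [s]) ∈ A) : x ∈ Ori A s ∨ sh (FreeGroup.mk [s]) x ∈ Ori A (iv s) := by
  by_contra h
  have h3 : sh (FreeGroup.mk [s]) x 1 ∈ A := by simpa [sh] using h2
  simp only [Ori, mem_ofPred_eq, not_or, not_and, not_forall, iv_iv, sh_iv] at h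
  obtain ⟨m, hm1, hm2⟩ := h.1 h1
  obtain ⟨m', hm1', hm2'⟩ := h.2 h3
  rcases le_total m m' with h | h
  · exact hm2 (Pth_anti A _ h hm1')
  · exact hm2' (Pth_anti A _ h hm1)

theorem Ori_two (A : Set Ω) {s s' : Fin k × Bool} (h : s ≠ s') {x : FreeGroup (Fin k) → Ω}
    (h1 : x ∈ Ori A s) (h2 : x ∈ Ori A s') : ∀ m, x ∈ Pth A m s ∧ x ∈ Pth A m s'
  | 0 => ⟨h1.1, h1.1⟩
  | m + 1 => ⟨⟨h1.1, s', h.symm, h2.2 m (Ori_two A h h1 h2 m).2⟩,
      ⟨h1.1, s, h, h1.2 m (Ori_two A h h1 h2 m).1⟩⟩

variable [MeasurableSpace Ω]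

theorem measurable_sh (g : FreeGroup (Fin k)) : Measurable (sh (Ω := Ω) g) :=
  measurable_pi_lambda _ fun _ => measurable_pi_apply _

theorem measurableSet_Pth {A : Set Ω} (hA : MeasurableSet A) :
    ∀ (m : ℕ) (t : Fin k × Bool), MeasurableSet (Pth A m t)
  | 0, _ => measurable_pi_apply 1 hA
  | m + 1, t => by
    have : Pth A (m + 1) t = (fun x => x 1) ⁻¹' A ∩
        ⋃ s, ⋃ (_ : s ≠ t), sh (FreeGroup.mk [s]) ⁻¹' Pth A m (iv s) := by
      ext x
      simp [Pth]
    rw [this]
    exact (measurable_pi_apply 1 hA).inter (MeasurableSet.iUnion fun s =>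
      MeasurableSet.iUnion fun _ => measurable_sh _ (measurableSet_Pth hA m _))

theorem measurableSet_Ori {A : Set Ω} (hA : MeasurableSet A) (s : Fin k × Bool) :
    MeasurableSet (Ori A s) := by
  have : Ori A s = (fun x => x 1) ⁻¹' A ∩
      ⋂ m, ((Pth A m s)ᶜ ∪ sh (FreeGroup.mk [s]) ⁻¹' Pth A m (iv s)) := by
    ext x
    simp only [Ori, mem_ofPred_eq, mem_inter_iff, mem_preimage, mem_iInter, mem_union,
      mem_compl_iff, imp_iff_not_or]
  rw [this]
  exact (measurable_pi_apply 1 hA).inter (MeasurableSet.iInter fun m =>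
    (measurableSet_Pth hA m s).compl.union (measurable_sh _ (measurableSet_Pth hA m _)))

variable (μ : Measure Ω) [IsProbabilityMeasure μ]

theorem measurePreserving_sh (g : FreeGroup (Fin k)) :
    MeasurePreserving (sh g) (Measure.infinitePi fun _ : FreeGroup (Fin k) => μ)
      (Measure.infinitePi fun _ : FreeGroup (Fin k) => μ) :=
  ⟨measurable_sh g, Measure.map_infinitePi_infinitePi_of_inj
    (P := fun _ : FreeGroup (Fin k) => μ) (f := fun h => h * g) (mul_left_injective g)⟩

theorem meas_Pth {A : Set Ω} (hA : MeasurableSet A) (m : ℕ) :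
    ∀ (t : Fin k × Bool) (w : List (Fin k × Bool)) (F : Finset (FreeGroup (Fin k))),
      FreeGroup.IsReduced w → (∀ s, s ≠ t → FreeGroup.IsReduced (s :: w)) →
      (∀ h ∈ F, h.norm < w.length) →
      (Measure.infinitePi fun _ : FreeGroup (Fin k) => μ)
        ((F : Set (FreeGroup (Fin k))).pi (fun _ => A) ∩ sh (FreeGroup.mk w) ⁻¹' Pth A m t) ≤
        (2 * k * μ A) ^ m * μ A ^ (F.card + 1) := by
  have hn : ∀ w : List (Fin k × Bool), FreeGroup.IsReduced w →
      (FreeGroup.mk w).norm = w.length := fun w hw => by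
    rw [FreeGroup.norm, FreeGroup.toWord_mk, hw.reduce_eq]
  induction m with
  | zero =>
    intro t w F hw _ hF
    have h1 : FreeGroup.mk w ∉ F := fun h => by
      have := hF _ h
      rw [hn w hw] at this
      exact lt_irrefl _ this
    have h2 : (F : Set (FreeGroup (Fin k))).pi (fun _ => A) ∩ sh (FreeGroup.mk w) ⁻¹' Pth A 0 t =
        ((insert (FreeGroup.mk w) F : Finset _) : Set (FreeGroup (Fin k))).pi (fun _ => A) := by
      ext x
      simp [Pth, sh, and_comm]
    rw [h2, Measure.infinitePi_pi _ fun _ _ => hA, Finset.prod_const,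
      Finset.card_insert_of_notMem h1, pow_zero, one_mul]
  | succ m ih =>
    intro t w F hw hs hF
    have h1 : FreeGroup.mk w ∉ F := fun h => by
      have := hF _ h
      rw [hn w hw] at this
      exact lt_irrefl _ this
    have h2 : (F : Set (FreeGroup (Fin k))).pi (fun _ => A) ∩
        sh (FreeGroup.mk w) ⁻¹' Pth A (m + 1) t ⊆ ⋃ s ∈ Finset.univ.erase t,
        (((insert (FreeGroup.mk w) F : Finset _) : Set (FreeGroup (Fin k))).pi (fun _ => A) ∩
          sh (FreeGroup.mk (s :: w)) ⁻¹' Pth A m (iv s)) := by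
      rintro x ⟨hx1, hx2, s, hs1, hs2⟩
      simp only [mem_iUnion]
      refine ⟨s, by simpa using hs1, ?_, ?_⟩
      · intro h hh
        rcases Finset.mem_insert.1 (Finset.mem_coe.1 hh) with rfl | hh
        · simpa [sh] using hx2
        · exact hx1 h hh
      · rw [sh_sh, FreeGroup.mul_mk] at hs2
        exact hs2
    refine (measure_mono h2).trans ((measure_biUnion_finset_le _ _).trans ?_)
    refine (Finset.sum_le_card_nsmul _ _ ((2 * k * μ A) ^ m * μ A ^ (F.card + 1 + 1))
      fun s hs' => ?_).trans ?_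
    · have hs'' := hs s (Finset.ne_of_mem_erase hs')
      have := ih (iv s) (s :: w) (insert (FreeGroup.mk w) F) hs'' (fun s' h' => ?_) fun h hh => ?_
      · rwa [Finset.card_insert_of_notMem h1] at this
      · refine FreeGroup.isReduced_cons_cons.2 ⟨fun h1 => ?_, hs''⟩
        by_contra h2
        refine h' (Prod.ext h1 ?_)
        simp only [iv]
        revert h2
        cases s'.2 <;> cases s.2 <;> simp
      · rcases Finset.mem_insert.1 hh with rfl | hh
        · rw [hn w hw]
          simp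
        · have := hF h hh
          simp only [List.length_cons]
          omega
    · have h3 : (((Finset.univ.erase t).card : ℕ) : ℝ≥0∞) ≤ 2 * k := by
        have : (Finset.univ.erase t).card ≤ 2 * k := by
          refine Finset.card_erase_le.trans ?_
          simp [mul_comm]
        exact_mod_cast this
      rw [nsmul_eq_mul]
      refine (mul_le_mul_left h3 _).trans (le_of_eq ?_)
      ring

theorem meas_iInter_Pth {A : Set Ω} (hA : MeasurableSet A) (h : 2 * k * μ A < 1)
    (t : Fin k × Bool) :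
    (Measure.infinitePi fun _ : FreeGroup (Fin k) => μ) (⋂ m, Pth A m t) = 0 := by
  refine le_antisymm (ge_of_tendsto' (ENNReal.tendsto_pow_atTop_nhds_zero_of_lt_one h)
    fun m => ?_) bot_le
  have h1 := meas_Pth μ hA m t [] ∅ FreeGroup.IsReduced.nil
    (fun _ _ => FreeGroup.IsReduced.singleton) (by simp)
  rw [← FreeGroup.one_eq_mk] at h1
  refine (measure_mono ?_).trans (h1.trans ?_)
  · intro x hx
    refine ⟨by simp, ?_⟩
    rw [mem_preimage, sh_one]
    exact mem_iInter.1 hx m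
  · exact mul_le_of_le_one_right' (pow_le_one₀ bot_le prob_le_one)

/-- almost surely at most one edge is oriented away from the origin -/
theorem ae_Ori {A : ℕ → Set Ω} (hA : ∀ n, MeasurableSet (A n)) (h : ∀ n, 2 * k * μ (A n) < 1) :
    ∀ᵐ x ∂(Measure.infinitePi fun _ : FreeGroup (Fin k) => μ), ∀ n, ∀ s s' : Fin k × Bool,
      x ∈ Ori (A n) s → x ∈ Ori (A n) s' → s = s' := by
  rw [ae_all_iff]
  intro n
  rw [ae_all_iff]
  intro s
  filter_upwards [measure_eq_zero_iff_ae_notMem.1 (meas_iInter_Pth μ (hA n) (h n) s)]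
    with x hx s' h1 h2
  by_contra h3
  exact hx (mem_iInter.2 fun m => (Ori_two _ h3 h1 h2 m).1)

end Pool.Agent.MP701998
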